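import Pool.Agent.K3h87.WB.Small
import Pool.Agent.K3h87.WB.Thresh

/-!
# MP_4d2320_co: the weighted Brouwer inequality and the level graphs

Let `A` be a symmetric matrix of nonnegative weights with zero diagonal, `G_t` (`t ≥ 0`) the graph of
the pairs of weight larger than `t`, and let `c ≤ n (n - 1) / 2`. If the sum of the `k` largest
Laplacian eigenvalues of every `G_t` is at most `e(G_t) + c`, then the sum of the `k` largest
Laplacian eigenvalues of `A` is at most `e(A)` plus the sum of the `c` largest weights. Therefore the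
weighted conjecture is equivalent to Brouwer's conjecture (the case of `0`/`1` weights), for every
single `n` and `k`. It holds for `k = 1`, `n - 2`, `n - 1` and all weights, and for all `k` if all
the level graphs are threshold graphs, for instance if the weights are `φ (w i + w j)` with a
nondecreasing `φ ≥ 0` (so for the weights `a i * a j`).

Proof. Let `v_1, ..., v_k` be orthonormal eigenvectors and `g_ij = ∑_l (v_l(i) - v_l(j))²`. The sum of
the eigenvalues is `∑ A_ij g_ij`, which is linear in `A` for fixed `g`. The sum of the `g_ij` over the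
edges of a graph `G` is at most the sum of the `k` largest eigenvalues of `G` (Ky Fan), and at most
`2 e(G)`, so that its value for `G_t` is at most `e(G_t) + min (e(G_t), c)`. Integrate over `t`.
The Laplacian of a threshold graph is diagonal in the Helmert basis of a suitable order of the
vertices.
-/

set_option autoImplicit false

open Finset Matrix
open Pool.Agent.K3h87.WB (EdgeBound level IsThreshold)

namespace Pool.Agent.Results.MP_4d2320_co.LevelGraphs

variable {n : ℕ}

/-- symmetric matrices of nonnegative weights with zero diagonal -/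
structure IsWeight (A : Matrix (Fin n) (Fin n) ℝ) : Prop where
  symm : A.IsSymm
  nonneg : ∀ i j, 0 ≤ A i j
  diag : ∀ i, A i i = 0

/-- Every sum of `k` eigenvalues of the Laplacian of `A` is at most the total weight plus the sum of
the weights of some `c` pairs. -/
def Bound (A : Matrix (Fin n) (Fin n) ℝ) (k c : ℕ) : Prop :=
  ∀ (hL : (Matrix.diagonal (fun i => ∑ j, A i j) - A).IsHermitian),
    ∀ s : Finset (Fin n), s.card = k →
      ∃ P : Finset (Fin n × Fin n), P.card = c ∧ (∀ p ∈ P, p.1 < p.2) ∧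
        ∑ i ∈ s, hL.eigenvalues i ≤
          (∑ i, ∑ j, if i < j then A i j else 0) + ∑ p ∈ P, A p.1 p.2

theorem bound_of_level {k c : ℕ} {A : Matrix (Fin n) (Fin n) ℝ} (hA : IsWeight A)
    (hc : c ≤ n.choose 2) (hG : ∀ t : ℝ, 0 ≤ t → EdgeBound (level A t) k c) : Bound A k c :=
  fun hL s hs => Pool.Agent.K3h87.WB.main hA.symm hA.nonneg hc hG hL s hs

theorem eig_congr {M N : Matrix (Fin n) (Fin n) ℝ} (h : M = N) (hM : M.IsHermitian)
    (hN : N.IsHermitian) (i : Fin n) : hM.eigenvalues i = hN.eigenvalues i := by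
  subst h
  rfl

theorem edgeBound_of_bound {k c : ℕ} (G : SimpleGraph (Fin n))
    (h : ∀ A : Matrix (Fin n) (Fin n) ℝ, IsWeight A → Bound A k c) : EdgeBound G k c := by
  classical
  unfold EdgeBound
  intro s hs
  have h01 : ∀ i j, G.adjMatrix ℝ i j ≤ 1 := by
    intro i j
    rw [SimpleGraph.adjMatrix_apply]
    split_ifs <;> norm_num
  have hA : IsWeight (G.adjMatrix ℝ) :=
    ⟨G.isSymm_adjMatrix, fun i j => by rw [SimpleGraph.adjMatrix_apply]; split_ifs <;> norm_num,
      fun i => by simp⟩
  have hlap := Pool.Agent.K3h87.WB.lap_adj G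
  unfold Pool.Agent.K3h87.WB.lap at hlap
  have hL : (Matrix.diagonal (fun i => ∑ j, G.adjMatrix ℝ i j) - G.adjMatrix ℝ).IsHermitian := by
    rw [hlap]
    exact G.isHermitian_lapMatrix ℝ
  obtain ⟨P, hP, -, hle⟩ := h _ hA hL s hs
  have h1 : ∑ i ∈ s, hL.eigenvalues i =
      ∑ i ∈ s, (G.isHermitian_lapMatrix (R := ℝ)).eigenvalues i :=
    Finset.sum_congr rfl fun i _ => eig_congr hlap _ _ i
  have h2 : ∑ p ∈ P, G.adjMatrix ℝ p.1 p.2 ≤ c := by
    calc ∑ p ∈ P, G.adjMatrix ℝ p.1 p.2 ≤ ∑ _p ∈ P, (1 : ℝ) :=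
          Finset.sum_le_sum fun p _ => h01 _ _
      _ = c := by simp [hP]
  have h3 : (∑ i, ∑ j, if i < j then G.adjMatrix ℝ i j else 0) = (G.edgeFinset.card : ℝ) := by
    rw [Pool.Agent.K3h87.WB.sum_E (fun i j => G.adjMatrix ℝ i j),
      Pool.Agent.K3h87.WB.card_edges G, ← Finset.sum_boole]
    exact Finset.sum_congr rfl fun p _ => by rw [SimpleGraph.adjMatrix_apply]
  rw [h1, h3] at hle
  linarith

theorem threshold_of_monotone (w : Fin n → ℝ) (φ : ℝ → ℝ) (hφ : Monotone φ) (t : ℝ) :
    IsThreshold (level (Matrix.of fun i j => if i = j then 0 else φ (w i + w j)) t) := by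
  classical
  have hs : (Matrix.of fun i j => if i = j then (0 : ℝ) else φ (w i + w j)).IsSymm := by
    ext i j
    simp only [Matrix.transpose_apply, Matrix.of_apply, eq_comm (a := j), add_comm (w j)]
  set T : Finset (Fin n × Fin n) := univ.filter fun p => φ (w p.1 + w p.2) ≤ t with hT
  obtain ⟨τ, h1, h2⟩ : ∃ τ : ℝ, (∀ i j, φ (w i + w j) ≤ t → w i + w j ≤ τ) ∧
      ∀ i j, w i + w j ≤ τ → φ (w i + w j) ≤ t := by
    rcases T.eq_empty_or_nonempty with he | hne
    · have h3 : ∀ i j, t < φ (w i + w j) := by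
        intro i j
        by_contra h
        have : (i, j) ∈ T := Finset.mem_filter.2 ⟨Finset.mem_univ _, not_lt.1 h⟩
        rw [he] at this
        simp at this
      rcases (univ : Finset (Fin n × Fin n)).eq_empty_or_nonempty with hu | hu
      · exact ⟨0, fun i j _ => absurd (Finset.mem_univ (i, j)) (by rw [hu]; simp),
          fun i j _ => absurd (Finset.mem_univ (i, j)) (by rw [hu]; simp)⟩
      · obtain ⟨q, -, hq⟩ := Finset.exists_min_image _ (fun p : Fin n × Fin n => w p.1 + w p.2) hu
        refine ⟨w q.1 + w q.2 - 1, fun i j h => absurd h (not_le.2 (h3 i j)), fun i j h => ?_⟩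
        have := hq (i, j) (Finset.mem_univ _)
        simp only at this
        linarith
    · obtain ⟨q, hqT, hq⟩ := Finset.exists_max_image T (fun p => w p.1 + w p.2) hne
      refine ⟨w q.1 + w q.2, fun i j h => hq (i, j) (Finset.mem_filter.2 ⟨Finset.mem_univ _, h⟩),
        fun i j h => ?_⟩
      exact (hφ h).trans (Finset.mem_filter.1 hqT).2
  refine ⟨w, τ, fun i j hij => ?_⟩
  rw [Pool.Agent.K3h87.WB.level_adj hs, Matrix.of_apply, if_neg hij]
  constructor
  · rintro ⟨-, h⟩
    by_contra h3
    exact absurd (h2 i j (not_lt.1 h3)) (not_le.2 h)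
  · intro h
    refine ⟨hij, ?_⟩
    by_contra h3
    exact absurd (h1 i j (not_lt.1 h3)) (not_le.2 h)

theorem isWeight_of_monotone (w : Fin n → ℝ) (φ : ℝ → ℝ) (h0 : ∀ x, 0 ≤ φ x) :
    IsWeight (Matrix.of fun i j => if i = j then 0 else φ (w i + w j)) := by
  refine ⟨?_, fun i j => ?_, fun i => by simp⟩
  · ext i j
    simp only [Matrix.transpose_apply, Matrix.of_apply, eq_comm (a := j), add_comm (w j)]
  · rw [Matrix.of_apply]
    split_ifs
    · exact le_rfl
    · exact h0 _

theorem choose_le {k : ℕ} (h : k + 1 ≤ n) : (k + 1).choose 2 ≤ n.choose 2 :=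
  Nat.choose_le_choose 2 h

/-- **Level graphs decide the weighted Brouwer inequality.** -/
theorem result :
    -- (1) the inequality for the level graphs implies the weighted inequality
    (∀ (n k c : ℕ) (A : Matrix (Fin n) (Fin n) ℝ), IsWeight A → c ≤ n.choose 2 →
      (∀ t : ℝ, 0 ≤ t → EdgeBound (level A t) k c) → Bound A k c) ∧
    -- (2) for all `n`, `k`, `c` the inequality for graphs is equivalent to the one for weights
    (∀ n k c : ℕ, c ≤ n.choose 2 → ((∀ G : SimpleGraph (Fin n), EdgeBound G k c) ↔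
      ∀ A : Matrix (Fin n) (Fin n) ℝ, IsWeight A → Bound A k c)) ∧
    -- (3) `k = 1`, `k = n - 2` and `k = n - 1`
    (∀ (n : ℕ) (A : Matrix (Fin n) (Fin n) ℝ), IsWeight A → ∀ k : ℕ, 1 ≤ k → k + 1 ≤ n →
      (k = 1 ∨ k + 2 = n ∨ k + 1 = n) → Bound A k ((k + 1).choose 2)) ∧
    -- (4) weights whose level graphs are threshold graphs
    (∀ (n : ℕ) (A : Matrix (Fin n) (Fin n) ℝ), IsWeight A →
      (∀ t : ℝ, 0 ≤ t → IsThreshold (level A t)) → ∀ k : ℕ, k + 1 ≤ n →
        Bound A k ((k + 1).choose 2)) ∧
    -- (5) for instance weights which are nondecreasing functions of `w i + w j`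
    (∀ (n : ℕ) (w : Fin n → ℝ) (φ : ℝ → ℝ), Monotone φ → (∀ x, 0 ≤ φ x) → ∀ k : ℕ, k + 1 ≤ n →
      Bound (Matrix.of fun i j => if i = j then 0 else φ (w i + w j)) k ((k + 1).choose 2)) := by
  refine ⟨fun n k c A hA hc hG => bound_of_level hA hc hG, fun n k c hc =>
    ⟨fun h A hA => bound_of_level hA hc fun t _ => h _, fun h G => edgeBound_of_bound G h⟩,
    fun n A hA k hk1 hkn hk => ?_, fun n A hA hT k hkn => bound_of_level hA (choose_le hkn)
      fun t ht => Pool.Agent.K3h87.WB.edgeBound_threshold (hT t ht) k,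
    fun n w φ hφ h0 k hkn => bound_of_level (isWeight_of_monotone w φ h0) (choose_le hkn)
      fun t _ => Pool.Agent.K3h87.WB.edgeBound_threshold (threshold_of_monotone w φ hφ t) k⟩
  refine bound_of_level hA (choose_le hkn) fun t _ => ?_
  rcases hk with rfl | rfl | rfl
  · exact Pool.Agent.K3h87.WB.edgeBound_one _
  · have := Pool.Agent.K3h87.WB.edgeBound_compl (n := k + 2) (by omega) (level A t)
    simpa using this
  · have := Pool.Agent.K3h87.WB.edgeBound_last (n := k + 1) (level A t)
    simpa using this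

end Pool.Agent.Results.MP_4d2320_co.LevelGraphs
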